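import Pool.Agent.Q214.UMED.Rec

/-!
# A maximal ideal without a closed maximal eventually different family

By transfinite recursion of length continuum we build a nonprincipal ultrafilter, together with
an independent family of continuum many functions from `ω` to `ω`. At each step one set `E` of
functions is treated, with the help of finitely many of the independent functions: either two
different elements of `E` are made equal on a set of the ultrafilter, or the function
`h(n) = f_{q(n)}(n)`, where `f_k` are different elements of `E` and `q` is a new independent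
function, is made different from every element of `E` on a set of the ultrafilter.
-/

open Set Filter Cardinal

namespace Pool.Agent.Results.MP_817dae_lc.MaximalIdealWithoutMED

/-- Ideals on `ω`: closed under subsets and finite unions, proper, containing all finite sets. -/
structure IsIdeal (I : Set (Set ℕ)) : Prop where
  subset_mem : ∀ A ∈ I, ∀ B ⊆ A, B ∈ I
  union_mem : ∀ A ∈ I, ∀ B ∈ I, A ∪ B ∈ I
  proper : (Set.univ : Set ℕ) ∉ I
  finite_mem : ∀ A : Set ℕ, A.Finite → A ∈ I

/-- Maximal ideals: ideals not contained in any strictly larger ideal. -/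
def IsMaximalIdeal (I : Set (Set ℕ)) : Prop :=
  IsIdeal I ∧ ∀ J, IsIdeal J → I ⊆ J → J = I

/-- `I`-maximal eventually different families. -/
def IsMED (I : Set (Set ℕ)) (E : Set (ℕ → ℕ)) : Prop :=
  (∀ f ∈ E, ∀ g ∈ E, f ≠ g → {n | f n = g n} ∈ I) ∧
    ∀ h : ℕ → ℕ, ∃ f ∈ E, {n | f n = h n} ∉ I

/-- The dual ideal of an ultrafilter. -/
def dual (U : Ultrafilter ℕ) : Set (Set ℕ) := {A | Aᶜ ∈ U}

lemma isMaximalIdeal_dual (U : Ultrafilter ℕ) (hU : (U : Filter ℕ) ≤ cofinite) :
    IsMaximalIdeal (dual U) := by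
  have hI : IsIdeal (dual U) := by
    refine ⟨?_, ?_, ?_, ?_⟩
    · intro A hA B hB
      exact mem_of_superset (f := (U : Filter ℕ)) hA (compl_subset_compl.2 hB)
    · intro A hA B hB
      show (A ∪ B)ᶜ ∈ U
      rw [compl_union]
      exact inter_mem (f := (U : Filter ℕ)) hA hB
    · show (Set.univ : Set ℕ)ᶜ ∉ U
      rw [compl_univ]
      exact U.empty_notMem
    · intro A hA
      exact hU hA.compl_mem_cofinite
  refine ⟨hI, fun J hJ hsub => Subset.antisymm ?_ hsub⟩
  intro A hA
  by_contra hne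
  have h1 : A ∈ U := by
    have h2 : Aᶜ ∉ U := hne
    rwa [Ultrafilter.compl_mem_iff_notMem, not_not] at h2
  have h2 : Aᶜ ∈ J := hsub (show Aᶜᶜ ∈ U by rwa [compl_compl])
  have h3 := hJ.union_mem A hA _ h2
  rw [union_compl_self] at h3
  exact hJ.proper h3

lemma not_isMED {U : Ultrafilter ℕ} {E : Set (ℕ → ℕ)} (h : Q214.UMED.Kills U E) :
    ¬ IsMED (dual U) E := by
  rintro ⟨h1, h2⟩
  rcases h with ⟨f, hf, g, hg, hne, hev⟩ | ⟨k, hk⟩
  · have h3 : {n | f n = g n}ᶜ ∈ U := h1 f hf g hg hne
    exact Ultrafilter.compl_notMem_iff.2 hev h3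
  · obtain ⟨f, hf, hf2⟩ := h2 k
    exact hf2 (hk f hf)

lemma card_borel : #{E : Set (ℕ → ℕ) // @MeasurableSet (ℕ → ℕ) (borel _) E} ≤ 𝔠 := by
  have h0 : (borel (ℕ → ℕ)) = MeasurableSpace.pi := BorelSpace.measurable_eq.symm
  rw [h0]
  have h1 := MeasurableSpace.cardinal_measurableSet_le_continuum
    (s := MeasurableSpace.countableGeneratingSet (ℕ → ℕ))
    ((Cardinal.mk_le_aleph0_iff.2
      (MeasurableSpace.countable_countableGeneratingSet (α := ℕ → ℕ)).to_subtype).trans
      aleph0_le_continuum)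
  rw [MeasurableSpace.generateFrom_countableGeneratingSet] at h1
  exact h1

/-- For every family of at most continuum many sets of functions there is a maximal ideal `I` such
that no member of the family and no Borel set (in particular no closed set) is an `I`-MED. -/
theorem result (𝓔 : Set (Set (ℕ → ℕ))) (h𝓔 : #𝓔 ≤ 𝔠) :
    ∃ I, IsMaximalIdeal I ∧ (∀ E, IsClosed E → ¬ IsMED I E) ∧
      (∀ E, @MeasurableSet (ℕ → ℕ) (borel _) E → ¬ IsMED I E) ∧ ∀ E ∈ 𝓔, ¬ IsMED I E := by
  classical
  let ι : Type := (𝔠 : Cardinal.{0}).ord.ToType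
  have hι : #ι = 𝔠 := mk_ord_toType 𝔠
  have hsmall : ∀ i : ι, #(Iio i) < 𝔠 := fun i => by
    have := mk_Iio_lt i (by simp [ι])
    rwa [hι] at this
  let D : Type := {E : Set (ℕ → ℕ) // @MeasurableSet (ℕ → ℕ) (borel _) E} ⊕ 𝓔
  have hD : #D ≤ #ι := by
    rw [hι, mk_sum]
    simp only [lift_id]
    exact (add_le_add card_borel h𝓔).trans (by rw [continuum_add_self])
  let val : D → Set (ℕ → ℕ) := Sum.elim Subtype.val Subtype.val
  have _ : Nonempty D := ⟨Sum.inl ⟨∅, @MeasurableSet.empty _ (borel _)⟩⟩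
  obtain ⟨j⟩ := Cardinal.le_def _ _ |>.1 hD
  let E : ι → Set (ℕ → ℕ) := fun i => val (Function.invFun j i)
  obtain ⟨U, hU1, hU2⟩ := Q214.UMED.exists_ultrafilter hsmall E
  have hU3 : ∀ d : D, Q214.UMED.Kills U (val d) := by
    intro d
    have h1 := hU2 (j d)
    have h2 : Function.invFun j (j d) = d := Function.leftInverse_invFun j.injective d
    have h3 : E (j d) = val d := congrArg val h2
    rwa [h3] at h1
  have hB : ∀ E, @MeasurableSet (ℕ → ℕ) (borel _) E → ¬ IsMED (dual U) E :=
    fun E hE => not_isMED (hU3 (Sum.inl ⟨E, hE⟩))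
  refine ⟨dual U, isMaximalIdeal_dual U hU1, ?_, hB, ?_⟩
  · intro E hE
    apply hB
    have h0 : (borel (ℕ → ℕ)) = MeasurableSpace.pi := BorelSpace.measurable_eq.symm
    rw [h0]
    exact hE.measurableSet
  · intro E hE
    exact not_isMED (hU3 (Sum.inr ⟨E, hE⟩))

end Pool.Agent.Results.MP_817dae_lc.MaximalIdealWithoutMED
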